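import Pool.Agent.Helper9.WS.Defs2

/-!
# Project WS, block WS-15: the case of blocks of size one
-/

open MvPolynomial Finset

namespace Pool.Agent.Helper9.WS

section

variable {p : ℕ} [Fact p.Prime] {n : ℕ} {k : Type} [Field k] {C : (Fin n →₀ ℕ) → Prop}
  (f : MvPolynomial (Fin n) k)

omit [Fact p.Prime] in
private theorem isTight_congr61 {E : Finset (Fin n →₀ ℕ)} {ω : Weight p E C} {U V : Fin n →₀ ℕ}
    {m m' : (Fin n →₀ ℕ) → ℕ} (h : ∀ e ∈ E, m e = m' e) (hm : IsTight ω U V m) : IsTight ω U V m' := by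
  have h1 : ∑ e ∈ E, m e • e = ∑ e ∈ E, m' e • e := Finset.sum_congr rfl fun e he => by rw [h e he]
  have h2 : ∑ e ∈ E, m e = ∑ e ∈ E, m' e := Finset.sum_congr rfl h
  unfold IsTight at hm ⊢
  rw [← h1, ← h2]
  exact hm

private theorem lead_ne61 {ω : Weight p f.support C} {c : Fin n → ℕ} {W : ℕ} {low : Finset (Fin n →₀ ℕ)}
    [CharP k p] (h : Simple ω c W low) (i : ℕ) {U : Fin n →₀ ℕ} (hU : U ∈ low) : lead f ω i U U ≠ 0 := by
  classical
  obtain ⟨m', hm', hlt⟩ := h.tight U hU
  let m0 : f.support → Fin p := fun e => ⟨m' e, hlt e e.2⟩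
  have hm0 : IsTight ω U U (fun e => if h : e ∈ f.support then (m0 ⟨e, h⟩ : ℕ) else 0) := by
    refine isTight_congr61 (fun e he => ?_) hm'
    rw [dif_pos he]
  have h1 : lead f ω i U U = ∏ e : f.support, f.coeff (e : Fin n →₀ ℕ) ^ (p ^ i * (m0 e : ℕ)) *
        (((m0 e : ℕ).factorial : ℕ) : k)⁻¹ := by
    unfold lead
    rw [Finset.sum_eq_single m0]
    · rw [if_pos hm0]
    · intro m _ hm
      rw [if_neg]
      intro ht
      apply hm
      funext e
      have h2 := (h.uniq U hU U hU _ _ ht hm').2 e e.2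
      rw [dif_pos e.2] at h2
      exact Fin.ext h2
    · intro h2
      exact absurd (Finset.mem_univ _) h2
  rw [h1]
  refine Finset.prod_ne_zero_iff.mpr fun e _ => mul_ne_zero (pow_ne_zero _ ?_) (inv_ne_zero ?_)
  · exact MvPolynomial.mem_support_iff.mp e.2
  · intro h2
    have h3 := (CharP.cast_eq_zero_iff k p _).mp h2
    have h4 := (Nat.Prime.dvd_factorial Fact.out).mp h3
    exact absurd (m0 e).2 (not_lt.mpr h4)

theorem Simple.blocks {ω : Weight p f.support C} {c : Fin n → ℕ} {W : ℕ}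
    {low : Finset (Fin n →₀ ℕ)} [CharP k p] (h : Simple ω c W low) (s : ℕ) :
    Blocks f ω c s W low := by
  have hsub : ∀ j, Subsingleton (low.filter fun U => ω.w U = j) := by
    intro j
    refine ⟨fun U V => Subtype.ext ?_⟩
    have hU := Finset.mem_filter.mp U.2
    have hV := Finset.mem_filter.mp V.2
    exact h.inj _ hU.1 _ hV.1 (hU.2.trans hV.2.symm)
  refine ⟨h.mem_low, ?_, h.bound, ?_, ?_⟩
  · intro U hU V hV m hm
    obtain ⟨m', hm', hlt⟩ := h.tight U hU
    obtain ⟨rfl, h2⟩ := h.uniq U hU V hV m m' hm hm'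
    refine ⟨rfl, fun e he => ?_⟩
    rw [h2 e he]
    exact hlt e he
  · intro j
    have h1 : ∀ i, (leadMat f ω low j i).det ≠ 0 := by
      intro i
      have := hsub j
      rcases isEmpty_or_nonempty (low.filter fun U => ω.w U = j) with h0 | ⟨⟨x⟩⟩
      · rw [Matrix.det_isEmpty]
        exact one_ne_zero
      · rw [Matrix.det_eq_elem_of_subsingleton _ x]
        exact lead_ne61 f h i (Finset.mem_filter.mp x.2).1
    induction s with
    | zero => simp [mprod]
    | succ s ih =>
      rw [mprod, Matrix.det_mul]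
      exact mul_ne_zero (h1 s) ih
  · intro j
    have := hsub j
    unfold Matrix.charpoly
    rcases isEmpty_or_nonempty (low.filter fun U => ω.w U = j) with h0 | ⟨⟨x⟩⟩
    · rw [Matrix.det_isEmpty]
      exact Polynomial.separable_one
    · rw [Matrix.det_eq_elem_of_subsingleton _ x, Matrix.charmatrix_apply_eq]
      exact Polynomial.separable_X_sub_C

end

end Pool.Agent.Helper9.WS
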